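import Pool.Agent.H29.KW2

set_option autoImplicit false

namespace Pool.Agent.Results.MP_d464c7_pr.Counter

open MeasureTheory ProbabilityTheory Pool.Agent.H29.KW2

/-- The family `(V₁, V₂ - V₁, -T)` as a function of `(W, S, T)`, where `V` is the increasing
rearrangement of `(W₁ + S, W₂)`. -/
noncomputable def fam (p : (ℝ × ℝ) × ℝ × ℝ) : Fin 3 → ℝ :=
  ![min (p.1.1 + p.2.1) p.1.2, max (p.1.1 + p.2.1) p.1.2 - min (p.1.1 + p.2.1) p.1.2, -p.2.2]

theorem result : ∃ τ σ : Measure ℝ,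
    IsProbabilityMeasure τ ∧ IsProbabilityMeasure σ ∧
    (∀ᵐ t ∂τ, 0 ≤ t) ∧ (∀ᵐ s ∂σ, 0 ≤ s) ∧ Integrable id τ ∧ Integrable id σ ∧
    0 < ∫ t, t ∂τ ∧ 0 < ∫ s, s ∂σ ∧ (∫ s, s ∂σ) / (2 * ∫ t, t ∂τ) < 1 ∧
    (∃ π, Stationary τ σ π) ∧
    ∃ f g : (Fin 3 → ℝ) → ℝ, Continuous f ∧ Continuous g ∧ Monotone f ∧ Monotone g ∧
      (∀ x, |f x| ≤ 1) ∧ (∀ x, |g x| ≤ 1) ∧
      ∀ π, Stationary τ σ π → cov[f ∘ fam, g ∘ fam; π.prod (σ.prod τ)] < 0 := by
  have hb : ∀ y : ℝ, |max 0 (min y 1)| ≤ 1 := fun y => by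
    rw [abs_of_nonneg (le_max_left _ _)]; exact max_le zero_le_one (min_le_right _ _)
  refine ⟨Measure.dirac 1, two 0 2, inferInstance, inferInstance, by simp,
    two_ae _ _ (by simp) (by simp), integrable_dirac (by simp), two_integrable _ _ _, by simp,
    by rw [two_int]; norm_num, by rw [two_int]; norm_num, ⟨_, stat0⟩,
    fun x => max 0 (min (x 0) 1), fun x => max 0 (min (x 1 - 1) 1), by fun_prop, by fun_prop,
    fun x y h => by have := h 0; dsimp only; gcongr,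
    fun x y h => by have := h 1; dsimp only; gcongr, fun x => hb _, fun x => hb _,
    fun π h => ?_⟩
  rw [uniq h]
  have cf : Continuous fam := by unfold fam; fun_prop
  have I : ∀ F : (ℝ × ℝ) × ℝ × ℝ → ℝ, Continuous F → (∀ x, |F x| ≤ 4) →
      ∫ p, F p ∂(two (0, 0) (0, 1)).prod ((two 0 2).prod (Measure.dirac 1)) =
      1 / 4 * (1 / 4 * F ((0, 0), 0, 1) + 3 / 4 * F ((0, 0), 2, 1)) +
      3 / 4 * (1 / 4 * F ((0, 1), 0, 1) + 3 / 4 * F ((0, 1), 2, 1)) := by
    intro F hF hB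
    have J : ∀ w, ∫ q, F (w, q) ∂(two 0 2).prod (Measure.dirac 1) =
        1 / 4 * F (w, 0, 1) + 3 / 4 * F (w, 2, 1) := fun w => by
      rw [integral_prod _ (Integrable.of_bound (by fun_prop) 4
        (Filter.Eventually.of_forall fun x => hB _))]
      simp only [integral_dirac]
      rw [two_int]
    rw [integral_prod _ (Integrable.of_bound hF.aestronglyMeasurable 4
      (Filter.Eventually.of_forall hB)), two_int, J, J]
  have hb' : ∀ y : ℝ, |max 0 (min y 1)| ≤ 4 := fun y => (hb y).trans (by norm_num)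
  have e1 := I (fun p => max 0 (min (fam p 0) 1)) (by fun_prop) fun x => hb' _
  have e2 := I (fun p => max 0 (min (fam p 1 - 1) 1)) (by fun_prop) fun x => hb' _
  unfold covariance
  simp only [Function.comp_def]
  rw [e1, e2, I _ (by fun_prop)]
  · norm_num [fam]
  · intro x
    have h1 := abs_le.1 (hb (fam x 0))
    have h2 := abs_le.1 (hb (fam x 1 - 1))
    generalize max 0 (min (fam x 0) 1) = a at h1 ⊢
    generalize max 0 (min (fam x 1 - 1) 1) = b at h2 ⊢
    norm_num [fam]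
    rw [← abs_mul, abs_le]
    constructor <;> nlinarith [h1.1, h1.2, h2.1, h2.2]

end Pool.Agent.Results.MP_d464c7_pr.Counter
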